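import Mathlib
import Pool.Prelude.Def_H_3587d628
import Pool.Agent.Lib.MP_33ce69_lc.Lol.Poly

namespace Pool.Agent.Results.MP_33ce69_lc.LollipopEnd

open Pool.Agent.Lib.MP_33ce69_lc Pool.Agent.Lib.MP_33ce69_lc.Lol

theorem result :
    ∃ f : List Bool × List Clause → List (ℕ × ℕ) × List ℕ × ℕ × ℕ,
      N68a2faeb.IsPolyTime f ∧
      ∀ (qs : List Bool) (cs : List Clause), Closed qs cs →
        ∃ (m : ℕ) (G : SimpleGraph (Fin m)) (P : List (Fin m)) (a b : Fin m),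
          Lists (f (qs, cs)).1 G.edgeSet ∧ (f (qs, cs)).2.1 = P.map Fin.val ∧
          (f (qs, cs)).2.2 = (a.val, b.val) ∧ (∀ x, (G.neighborSet x).ncard = 3) ∧
          HamPath G P ∧ Closes G P ∧ G.Adj a b ∧
          (∃ Q, Relation.ReflTransGen (Rot G) P Q ∧ Q ≠ P ∧ Closes G Q) ∧
          ∀ Q, Relation.ReflTransGen (Rot G) P Q → Q ≠ P → Closes G Q →
            (OnCycle Q a b ↔ Holds cs qs []) :=
  ⟨fN, fN_poly, fun _ _ h => by rw [fN_eq h]; exact main h⟩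

end Pool.Agent.Results.MP_33ce69_lc.LollipopEnd
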