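import Mathlib
import Pool.Prelude.Def_H_3587d628
import Pool.Agent.Lib.MP_33ce69_lc.Odd.Red

namespace Pool.Agent.Results.MP_33ce69_lc.OddHard

open Pool.Agent.Lib.MP_33ce69_lc Pool.Agent.Lib.MP_33ce69_lc.Odd

theorem result :
    ∃ (f : ℕ × List Gate → List (ℕ × ℕ) × List ℕ)
      (g : (ℕ × List Gate) × List (ℕ × ℕ) → List ℕ),
      N68a2faeb.IsPolyTime f ∧ N68a2faeb.IsPolyTime g ∧
      ∀ (n : ℕ) (gs : List Gate), PCValid n gs →
        ∃ (m : ℕ) (G : SimpleGraph (Fin m)) (v : Fin m) (C : G.Walk v v),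
          Lists (f (n, gs)).1 G.edgeSet ∧ (f (n, gs)).2 = C.support.map Fin.val ∧
          C.IsHamiltonianCycle ∧ (∀ x, (G.neighborSet x).ncard % 2 = 1) ∧
          (∃ a c, ∀ x, x ≠ a → x ≠ c → (G.neighborSet x).ncard = 3) ∧
          ∀ (w : Fin m) (D : G.Walk w w) (E : List (ℕ × ℕ)), D.IsHamiltonianCycle →
            D.edgeSet ≠ C.edgeSet → Lists E D.edgeSet → PCSolves n gs (g ((n, gs), E)) :=
  ⟨fN, gN', fN_poly, gN_poly, fun n gs h =>
    let ⟨m, G, v, C, a1, a2, a3, a4, a5⟩ := reduction n gs h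
    ⟨m, G, v, C, a1, a2, a3, fun x => Nat.odd_iff.1 (a4 x), a5⟩⟩

end Pool.Agent.Results.MP_33ce69_lc.OddHard
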