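import Mathlib
import Pool.Prelude.Def_H_3587d628
import Pool.Agent.Lib.MP_33ce69_lc.Main

namespace Pool.Agent.Results.MP_33ce69_lc.PlanarAlmost

open Pool.Agent.Lib.MP_33ce69_lc

theorem result : ∃ A : List (ℕ × ℕ) × List ℕ → List (ℕ × ℕ), N68a2faeb.IsPolyTime A ∧
    ∀ (n : ℕ) (G : SimpleGraph (Fin n)) [DecidableRel G.Adj] (E : List (ℕ × ℕ)) (v : Fin n)
      (C : G.Walk v v), G.IsRegularOfDegree 3 → IsPlanar G → Lists E G.edgeSet →
      C.IsHamiltonianCycle →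
      ∃ (w : Fin n) (D : G.Walk w w), D.IsCycle ∧
        Lists (A (E, C.support.map Fin.val)) D.edgeSet ∧ n ≤ D.length + 1 ∧
        s(v, C.snd) ∈ D.edges ∧ ∃ e ∈ D.edges, e ∉ C.edges :=
  ⟨algN, algN_poly, main⟩

end Pool.Agent.Results.MP_33ce69_lc.PlanarAlmost
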